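import Pool.Agent.Q295.Ugw.Gw
import Pool.Agent.Q295.Ugw.Atom

/-!
# Finitely many atoms: the final assembly

The law of the tree `tr U` is described by offspring numbers `N w ω` truncated at a bound `Δ` of the
support; the mass transport argument (`main2`) and the passage from moments to atoms (`atom_zero`)
are in the library `Pool.Agent.Q295.Ugw`.
-/

set_option autoImplicit false

open scoped ENNReal InnerProductSpace Polynomial Topology
open MeasureTheory ProbabilityTheory Filter

namespace Pool.Agent.Run7.h340.Ugw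

open Pool.Agent.Q295.Ugw

/-- truncation -/
def trunc (Δ : ℕ) (n : ℕ) : Fin (Δ + 1) := ⟨min n Δ, by omega⟩

lemma trunc_val {Δ n : ℕ} (h : n ≤ Δ) : (trunc Δ n : ℕ) = n := by
  simp [trunc, h]

lemma measurable_trunc (Δ : ℕ) : Measurable (trunc Δ) := measurable_from_top

section

variable {Ω : Type*} [MeasurableSpace Ω] {μ : Measure Ω} [IsProbabilityMeasure μ]

/-- no eigenvector at the root almost surely, off the exceptional set -/
lemma Pt_null {Δ : ℕ} {U : List ℕ → Ω → Fin (Δ + 1)} (hU : ∀ w, Measurable (U w))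
    (hind : iIndepFun U μ) (ρ : Measure (Fin (Δ + 1))) [IsProbabilityMeasure ρ]
    (hρ : ∀ w, w ≠ [] → μ.map (U w) = ρ) (p : ℕ → ℝ) (p0 : p 0 = 0)
    (hroot : ∀ a : Fin (Δ + 1), μ.real {ω | U [] ω = a} = p a) (l : ℝ)
    (hl : ∀ j ∈ Finset.range Δ, p (j + 1) * qq (LL ρ) l (j + 1) l = 0) :
    μ {ω | Pt l (tr U ω)} = 0 := by
  classical
  have htr : Measurable (tr U) := measurable_pi_iff.2 fun w => hU w
  have hPm : MeasurableSet {ω | Pt l (tr U ω)} := htr (measurableSet_Pt l)
  have key : ∀ a : Fin (Δ + 1), μ ({ω | Pt l (tr U ω)} ∩ {ω | U [] ω = a}) = 0 := by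
    intro a
    have hS : MeasurableSet {ω | U [] ω = a} := (hU []) (measurableSet_singleton a)
    set F : Tr Δ → ℝ := ({τ : Tr Δ | Pt l τ}).indicator (fun _ => (1 : ℝ)) with hF
    have hFm : Measurable F := measurable_const.indicator (measurableSet_Pt l)
    have h := root_prob hU hind ρ hρ a F hFm
    have h1 : ∀ ω, F (clean (tr U ω)) = ({ω | Pt l (tr U ω)}).indicator (fun _ => (1 : ℝ)) ω := by
      intro ω
      by_cases hp : Pt l (tr U ω)
      · rw [Set.indicator_of_mem (show ω ∈ {ω | Pt l (tr U ω)} from hp), hF,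
          Set.indicator_of_mem (show clean (tr U ω) ∈ {τ : Tr Δ | Pt l τ} from (Pt_clean l _).2 hp)]
      · rw [Set.indicator_of_notMem (show ω ∉ {ω | Pt l (tr U ω)} from hp), hF,
          Set.indicator_of_notMem (show clean (tr U ω) ∉ {τ : Tr Δ | Pt l τ} from
            fun h' => hp ((Pt_clean l _).1 h'))]
    have h2 : ∫ ω in {ω | U [] ω = a}, F (clean (tr U ω)) ∂μ =
        μ.real ({ω | Pt l (tr U ω)} ∩ {ω | U [] ω = a}) := by
      simp only [h1]
      rw [integral_indicator hPm, setIntegral_const, smul_eq_mul, mul_one, measureReal_restrict_apply hPm]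
    have ha : (a : ℕ) ≤ Δ := by have := a.2; omega
    have h3 : ∫ d, F (graft a d) ∂(Pk (LL ρ) a) = qq (LL ρ) l a l := by
      have h4 : ∀ d : Fin (a : ℕ) → Tr Δ, F (graft a d) =
          ({d : Fin (a : ℕ) → Tr Δ | (∀ i, Rt l (d i)) ∧ ∑ i, tv l (d i) = l}).indicator
            (fun _ => (1 : ℝ)) d := by
        intro d
        by_cases hp : Pt l (graft a d)
        · rw [hF, Set.indicator_of_mem (show graft a d ∈ {τ : Tr Δ | Pt l τ} from hp),
            Set.indicator_of_mem]
          exact (Pt_graft ha d).1 hp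
        · rw [hF, Set.indicator_of_notMem (show graft a d ∉ {τ : Tr Δ | Pt l τ} from hp),
            Set.indicator_of_notMem]
          exact fun h' => hp ((Pt_graft ha d).2 h')
      simp only [h4]
      rw [integral_indicator (measurableSet_qq l a l), setIntegral_const, smul_eq_mul, mul_one]
      rfl
    rw [h2, h3, hroot] at h
    have h5 : p a * qq (LL ρ) l a l = 0 := by
      obtain ⟨n, hn⟩ := a
      rcases n with _ | j
      · simp [p0]
      · exact hl j (Finset.mem_range.2 (by omega))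
    rw [h5, measureReal_def] at h
    rcases (ENNReal.toReal_eq_zero_iff _).1 h with h6 | h6
    · exact h6
    · exact absurd h6 (measure_ne_top _ _)
  have hun : {ω | Pt l (tr U ω)} ⊆ ⋃ a : Fin (Δ + 1), ({ω | Pt l (tr U ω)} ∩ {ω | U [] ω = a}) := by
    intro ω hω
    exact Set.mem_iUnion.2 ⟨U [] ω, hω, rfl⟩
  exact measure_mono_null hun (measure_iUnion_null key)

end

/-- **Finitely many atoms.** -/
theorem finite_atoms {Ω : Type*} [MeasurableSpace Ω] (μ : Measure Ω) [IsProbabilityMeasure μ]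
    (P : PMF ℕ) (hfin : P.support.Finite) (hP0 : P 0 = 0) (hP1 : P 1 = 0)
    (N : List ℕ → Ω → ℕ) (hN : ∀ w, Measurable (N w)) (hind : iIndepFun N μ)
    (hroot : ∀ k : ℕ, μ {ω | N [] ω = k} = P k)
    (hchild : ∀ w : List ℕ, w ≠ [] → ∀ k : ℕ,
      μ {ω | N w ω = k} = ((k : ENNReal) + 1) * P (k + 1) / ∑' j : ℕ, (j : ENNReal) * P j)
    (ν : Measure ℝ) [IsProbabilityMeasure ν] (hR : ∃ R : ℝ, ν (Set.Icc (-R) R)ᶜ = 0)
    (hmom : ∀ k : ℕ, ∫ x, x ^ k ∂ν =
        ∫ ω, ((Set.ncard {f : Fin (k + 1) → List ℕ |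
            f 0 = [] ∧ f (Fin.last k) = [] ∧
            (∀ i, ∀ j < (f i).length, (f i).getD j 0 < N ((f i).take j) ω) ∧
            ∀ i : Fin k, (∃ a : ℕ, f i.succ = f i.castSucc ++ [a]) ∨
                         (∃ a : ℕ, f i.castSucc = f i.succ ++ [a])} : ℕ) : ℝ) ∂μ) :
    {x : ℝ | ν {x} ≠ 0}.Finite := by
  classical
  -- the bound of the support
  obtain ⟨Δ, hΔ⟩ : ∃ Δ : ℕ, ∀ k, Δ < k → P k = 0 := by
    obtain ⟨Δ, hΔ⟩ := hfin.bddAbove
    refine ⟨Δ, fun k hk => ?_⟩
    by_contra hne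
    have := hΔ ((PMF.mem_support_iff P k).2 hne)
    omega
  set p : ℕ → ℝ := fun k => (P k).toReal with hp
  have hpn : ∀ k, 0 ≤ p k := fun k => ENNReal.toReal_nonneg
  have hp0 : p 0 = 0 := by simp [hp, hP0]
  have hp1 : p 1 = 0 := by simp [hp, hP1]
  have hPtop : ∀ k, P k ≠ ∞ := fun k => P.apply_ne_top k
  have hmE : ∑' j : ℕ, (j : ENNReal) * P j = ∑ j ∈ Finset.range (Δ + 1), (j : ENNReal) * P j := by
    refine tsum_eq_sum fun j hj => ?_
    rw [hΔ j (by simpa using hj), mul_zero]
  have hsumE : ∑ j ∈ Finset.range (Δ + 1), P j = 1 := by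
    rw [← P.tsum_coe]
    refine (tsum_eq_sum fun j hj => ?_).symm
    exact hΔ j (by simpa using hj)
  have hsum1 : ∑ k ∈ Finset.range (Δ + 1), p k = 1 := by
    have := congrArg ENNReal.toReal hsumE
    rwa [ENNReal.toReal_sum (fun k _ => hPtop k), ENNReal.toReal_one] at this
  set m : ℝ := ∑ j ∈ Finset.range (Δ + 1), (j : ℝ) * p j with hm
  have hmR : (∑' j : ℕ, (j : ENNReal) * P j).toReal = m := by
    rw [hmE, ENNReal.toReal_sum (fun k _ => ENNReal.mul_ne_top (ENNReal.natCast_ne_top k) (hPtop k))]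
    refine Finset.sum_congr rfl fun k _ => ?_
    rw [ENNReal.toReal_mul, ENNReal.toReal_natCast]
  have hm_pos : 0 < m := by
    have h1 : (1 : ℝ) ≤ m := by
      rw [hm, ← hsum1]
      apply Finset.sum_le_sum
      intro k _
      rcases k with _ | k
      · simp [hp0]
      · have : (1 : ℝ) ≤ ((k + 1 : ℕ) : ℝ) := by push_cast; linarith [Nat.cast_nonneg (α := ℝ) k]
        exact le_mul_of_one_le_left (hpn _) this
    linarith
  have hpΔ : p (Δ + 1) = 0 := by simp [hp, hΔ (Δ + 1) (Nat.lt_succ_self Δ)]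
  set ph : ℕ → ℝ := fun k => ((k : ℝ) + 1) * p (k + 1) / m with hph
  -- the truncated offspring numbers
  set U : List ℕ → Ω → Fin (Δ + 1) := fun w ω => trunc Δ (N w ω) with hUdef
  have hU : ∀ w, Measurable (U w) := fun w => (measurable_trunc Δ).comp (hN w)
  have hindU : iIndepFun U μ := hind.comp (fun _ => trunc Δ) (fun _ => measurable_trunc Δ)
  -- the truncation is almost surely not seen
  have hae1 : ∀ w, ∀ᵐ ω ∂μ, N w ω ≤ Δ := by
    intro w
    have : ∀ᵐ ω ∂μ, ∀ k, Δ < k → N w ω ≠ k := by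
      rw [ae_all_iff]
      intro k
      by_cases hk : Δ < k
      · have hz : μ {ω | N w ω = k} = 0 := by
          by_cases hw : w = []
          · subst hw
            rw [hroot k, hΔ k hk]
          · rw [hchild w hw k, hΔ (k + 1) (by omega), mul_zero, ENNReal.zero_div]
        have h2 : ∀ᵐ ω ∂μ, N w ω ≠ k := by
          rw [ae_iff]
          simpa using hz
        filter_upwards [h2] with ω hω _
        exact hω
      · exact Eventually.of_forall fun ω h => absurd h hk
    filter_upwards [this] with ω hω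
    by_contra hlt
    exact hω (N w ω) (by omega) rfl
  have hae : ∀ᵐ ω ∂μ, ∀ w, (U w ω : ℕ) = N w ω := by
    rw [ae_all_iff]
    intro w
    filter_upwards [hae1 w] with ω hω
    exact trunc_val hω
  have hUN : ∀ w (a : Fin (Δ + 1)), μ {ω | U w ω = a} = μ {ω | N w ω = (a : ℕ)} := by
    intro w a
    apply measure_congr
    filter_upwards [hae1 w] with ω hω
    have h1 : (U w ω : ℕ) = N w ω := trunc_val hω
    apply propext
    show U w ω = a ↔ N w ω = (a : ℕ)
    rw [← h1, Fin.ext_iff]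
  -- the offspring law
  set ρ : Measure (Fin (Δ + 1)) := μ.map (U [0]) with hρdef
  haveI : IsProbabilityMeasure ρ := Measure.isProbabilityMeasure_map (hU [0]).aemeasurable
  have hρ : ∀ w, w ≠ [] → μ.map (U w) = ρ := by
    intro w hw
    refine Measure.ext_of_singleton fun a => ?_
    rw [Measure.map_apply (hU w) (measurableSet_singleton a), hρdef,
      Measure.map_apply (hU [0]) (measurableSet_singleton a)]
    have h1 := hUN w a
    have h2 := hUN [0] a
    have h3 : μ (U w ⁻¹' {a}) = μ {ω | U w ω = a} := rfl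
    have h4 : μ (U [0] ⁻¹' {a}) = μ {ω | U [0] ω = a} := rfl
    rw [h3, h4, h1, h2, hchild w hw, hchild [0] (by simp)]
  have hρa : ∀ a : Fin (Δ + 1), ρ.real {a} = ph a := by
    intro a
    rw [measureReal_def, hρdef, Measure.map_apply (hU [0]) (measurableSet_singleton a)]
    have h4 : μ (U [0] ⁻¹' {a}) = μ {ω | U [0] ω = a} := rfl
    rw [h4, hUN [0] a, hchild [0] (by simp), ENNReal.toReal_div, hmR, ENNReal.toReal_mul,
      ENNReal.toReal_add (ENNReal.natCast_ne_top _) ENNReal.one_ne_top, ENNReal.toReal_natCast,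
      ENNReal.toReal_one]
  have hrootp : ∀ a : Fin (Δ + 1), μ.real {ω | U [] ω = a} = p a := by
    intro a
    rw [measureReal_def, hUN [] a, hroot]
  have hfix : Fix (LL ρ) p ph m :=
    fix_LL ρ p ph m hpn hsum1 hp0 hp1 hm_pos (fun k => rfl) hpΔ hρa
  obtain ⟨F, hF, hFl⟩ := main2 hfix
  refine hF.subset fun l hl => ?_
  by_contra hlF
  apply hl
  obtain ⟨R, hR⟩ := hR
  have htr : Measurable (tr U) := measurable_pi_iff.2 fun w => hU w
  refine atom_zero (μ := μ) (τ := tr U) htr R hR ?_ l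
    (Pt_null hU hindU ρ hρ p hp0 hrootp l (hFl l hlF))
  intro k
  rw [hmom k]
  apply integral_congr_ae
  filter_upwards [hae] with ω hω
  rw [← ncard_walks (tr U ω) k]
  congr 3
  ext f
  simp only [Set.mem_setOf_eq, mem_iff]
  have : ∀ w, (tr U ω w : ℕ) = N w ω := fun w => hω w
  simp only [this]

end Pool.Agent.Run7.h340.Ugw
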